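import Pool.Agent.LPC.Stmts

/-! LPC row GFT (helper4). -/

set_option autoImplicit false

open MeasureTheory Filter Topology
open scoped RealInnerProductSpace

namespace Pool.Agent.LPC.H4

theorem gft : GftStmt := by
  intro n x a ha
  have hb : 0 < ((a / 2 : ℝ) : ℂ).re := by
    rw [Complex.ofReal_re]
    positivity
  have h1 := GaussianFourier.integral_cexp_neg_mul_sq_norm_add_of_euclideanSpace
    (ι := Fin n) hb Complex.I x
  have hint := GaussianFourier.integrable_cexp_neg_mul_sq_norm_add_of_euclideanSpace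
    (ι := Fin n) hb Complex.I x
  have hre : ∀ v : V n, (Complex.exp (-((a / 2 : ℝ) : ℂ) * (‖v‖ : ℂ) ^ 2 +
      Complex.I * ((⟪x, v⟫ : ℝ) : ℂ))).re =
      ‖v‖ ^ (2 * 0) * Real.exp (-a * ‖v‖ ^ 2 / 2) * Real.cos ⟪x, v⟫ := by
    intro v
    rw [mul_zero, pow_zero, one_mul]
    have h2 : -((a / 2 : ℝ) : ℂ) * (‖v‖ : ℂ) ^ 2 + Complex.I * ((⟪x, v⟫ : ℝ) : ℂ) =
        ((-a * ‖v‖ ^ 2 / 2 : ℝ) : ℂ) + ((⟪x, v⟫ : ℝ) : ℂ) * Complex.I := by
      push_cast
      ring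
    rw [h2]
    generalize (-a * ‖v‖ ^ 2 / 2 : ℝ) = u
    generalize (⟪x, v⟫ : ℝ) = y
    rw [Complex.exp_re]
    simp
  have hJ : JJ n 0 x a = (∫ v : V n, Complex.exp (-((a / 2 : ℝ) : ℂ) * (‖v‖ : ℂ) ^ 2 +
      Complex.I * ((⟪x, v⟫ : ℝ) : ℂ))).re := by
    unfold JJ
    rw [← Complex.reCLM_apply, ← ContinuousLinearMap.integral_comp_comm _ hint]
    refine integral_congr_ae (Filter.Eventually.of_forall fun v => ?_)
    exact (hre v).symm
  rw [hJ, h1]
  have hpos : (0 : ℝ) ≤ 2 * Real.pi / a := by positivity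
  have h3 : ((Real.pi : ℂ) / ((a / 2 : ℝ) : ℂ)) ^ ((Fintype.card (Fin n) : ℂ) / 2) *
      Complex.exp (Complex.I ^ 2 * (‖x‖ : ℂ) ^ 2 / (4 * ((a / 2 : ℝ) : ℂ))) =
      (((2 * Real.pi / a) ^ ((n : ℝ) / 2) * Real.exp (-‖x‖ ^ 2 / (2 * a)) : ℝ) : ℂ) := by
    rw [Complex.ofReal_mul, Complex.ofReal_cpow hpos, Complex.ofReal_exp, Fintype.card_fin]
    have hac : (a : ℂ) ≠ 0 := by exact_mod_cast ha.ne'
    congr 1
    · congr 1
      · push_cast
        field_simp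
      · push_cast
        rfl
    · congr 1
      rw [Complex.I_sq]
      push_cast
      field_simp
      norm_num
  rw [h3, Complex.ofReal_re]
  unfold KK
  simp [tT]

end Pool.Agent.LPC.H4
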